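import Pool.Agent.W304.PQ.B

/-!
Project PQ (helper114), task B, main part.
-/

set_option autoImplicit false

namespace Pool.Agent.W304.PQ

open Finset Filter Topology
open Pool.Agent.H951R4.OD (ch PI Ex mert_le sum_inv_prod d3_ncard d3_ps d3_log)
open Pool.Agent.W114.PQ

theorem nine_rpow (L : ℝ) (hL : 0 < L) :
    (L ^ (3 / 4 : ℝ) / 9) ^ (-(3 / 2) : ℝ) = 27 * L ^ (-(9 / 8) : ℝ) := by
  rw [Real.div_rpow (Real.rpow_nonneg hL.le _) (by norm_num), ← Real.rpow_mul hL.le]
  have h1 : (9 : ℝ) ^ (-(3 / 2) : ℝ) = 1 / 27 := by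
    rw [show (9 : ℝ) = 3 ^ (2 : ℝ) by norm_num, ← Real.rpow_mul (by norm_num)]
    rw [show (2 : ℝ) * -(3 / 2) = -3 by norm_num, Real.rpow_neg (by norm_num)]
    norm_num
  rw [h1, show (3 / 4 : ℝ) * -(3 / 2) = -(9 / 8) by norm_num]
  ring

open scoped Classical in
theorem main (cb : S_CB) (l2 : S_L2) : S_B := by
  intro D hD k
  obtain ⟨C, hC1, hCB⟩ := cb D hD k
  obtain ⟨CM, hCM0, hCM⟩ := mert_le
  choose Dj hDj1 hDj using sum_inv_prod
  set SD : ℝ := ∑ j ∈ range k, Dj j with hSD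
  have hSD0 : 0 ≤ SD := sum_nonneg (fun j _ => by linarith [hDj1 j])
  set c : ℕ → ℝ := fun q => if q ∣ D.c0 then 0 else D.ρ q with hc
  have hcκ : ∀ q, |c q| ≤ D.κ := by
    intro q
    have h1 := hD.rho_up q
    rw [hc]
    dsimp only
    split_ifs
    · rw [abs_zero]
      linarith [hD.κ1]
    · rw [abs_of_nonneg h1.1]
      exact h1.2
  have htend : Tendsto (fun X : ℕ => Real.log (X : ℝ)) atTop atTop :=
    Real.tendsto_log_atTop.comp tendsto_natCast_atTop_atTop
  refine squeeze_zero' ?_ ?_ ((lim_facts (8 * D.κ ^ 2) (54 * C * SD * (1 + CM)) (k + 2)).comp htend)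
  · filter_upwards with X
    exact div_nonneg (mul_nonneg (Nat.cast_nonneg _) (Real.log_natCast_nonneg X))
      (Nat.cast_nonneg _)
  filter_upwards [htend.eventually (ev_facts C k)] with X hX
  obtain ⟨f1, f2, f3, f4, f5, f6, f7, f8⟩ := hX
  simp only [Function.comp]
  set L : ℝ := Real.log (X : ℝ) with hL
  set u : ℝ := L ^ (3 / 4 : ℝ) with hu
  have hL0 : 0 < L := by linarith
  have hu0 : 0 < u := Real.rpow_pos_of_pos hL0 _
  have hlL : 0 ≤ Real.log L := Real.log_nonneg (by linarith)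
  have hX1 : (1 : ℝ) < X := by
    by_contra hcon
    push Not at hcon
    have := Real.log_nonpos (Nat.cast_nonneg X) hcon
    linarith
  have hX0 : (0 : ℝ) < X := by linarith
  have hXe : Real.exp L = X := Real.exp_log hX0
  -- w
  set w : ℕ := wX X with hw
  have hw1 : (w : ℝ) ≤ Real.exp u := Nat.floor_le (Real.exp_pos _).le
  have hw2 : Real.exp u < w + 1 := Nat.lt_floor_add_one _
  have hw3 : 3 ≤ w := by
    have h1 : ((3 : ℕ) : ℝ) < (w : ℝ) + 0 := by
      push_cast
      linarith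
    rw [add_zero] at h1
    have h2 : 3 < w := by exact_mod_cast h1
    omega
  have hwpos : (0 : ℝ) < w := by
    have : 0 < w := by omega
    exact_mod_cast this
  have hlw : Real.log w ≤ u := by
    have := Real.log_le_log hwpos hw1
    rwa [Real.log_exp] at this
  -- Q
  set Q : ℕ := ⌊Real.exp (u / 8)⌋₊ with hQ
  have hQ1 : (Q : ℝ) ≤ Real.exp (u / 8) := Nat.floor_le (Real.exp_pos _).le
  have hQ2 : Real.exp (u / 8) < Q + 1 := Nat.lt_floor_add_one _
  -- Y
  set Y : ℕ := ⌈L ^ 3⌉₊ with hY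
  have hL3 : 8 ≤ L ^ 3 := by nlinarith [sq_nonneg (L - 2), mul_self_nonneg L]
  have hY1 : L ^ 3 ≤ Y := Nat.le_ceil _
  have hY2 : (Y : ℝ) < L ^ 3 + 1 := Nat.ceil_lt_add_one (by linarith)
  have hY3 : 3 ≤ Y := by
    have h1 : ((3 : ℕ) : ℝ) ≤ Y := by
      push_cast
      linarith
    exact_mod_cast h1
  have hYQ : Y ≤ Q := by
    have h1 : (Y : ℝ) ≤ Q := by linarith
    exact_mod_cast h1
  have hQ4 : Q ^ 4 ≤ w := by
    have h1 : (Q : ℝ) ^ 4 ≤ Real.exp (u / 2) := by
      have h2 := pow_le_pow_left₀ (Nat.cast_nonneg Q) hQ1 4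
      rw [← Real.exp_nat_mul] at h2
      refine h2.trans (le_of_eq ?_)
      congr 1
      push_cast
      ring
    have h3 : (Q : ℝ) ^ 4 ≤ w := by linarith
    exact_mod_cast h3
  have hQw : Q ≤ w := (Nat.le_self_pow (by norm_num) Q).trans hQ4
  have hQpos : (0 : ℝ) < Q := by
    have : 0 < Q := by omega
    exact_mod_cast this
  have hlQ1 : Real.log Q ≤ u / 8 := by
    have := Real.log_le_log hQpos hQ1
    rwa [Real.log_exp] at this
  have hlQ2 : u / 9 ≤ Real.log Q := by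
    have h1 : Real.exp (u / 9) ≤ Q := by linarith
    have h2 := Real.log_le_log (Real.exp_pos _) h1
    rwa [Real.log_exp] at h2
  have hcond : C * Real.log Q * (1 + Real.log (Real.log Q)) ≤ Real.log X := by
    have h1 : Real.log (Real.log Q) ≤ Real.log L :=
      Real.log_le_log (by linarith) (by linarith)
    have h2 : C * Real.log Q ≤ C * u := mul_le_mul_of_nonneg_left (by linarith) (by linarith)
    have h3 : 0 ≤ C * Real.log Q := mul_nonneg (by linarith) (by linarith)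
    calc C * Real.log Q * (1 + Real.log (Real.log Q))
        ≤ C * Real.log Q * (1 + Real.log L) := mul_le_mul_of_nonneg_left (by linarith) h3
      _ ≤ C * u * (1 + Real.log L) := mul_le_mul_of_nonneg_right h2 (by linarith)
      _ ≤ L := f3
  have hlY0 : 0 ≤ Real.log Y := Real.log_natCast_nonneg Y
  have hlY : Real.log Y ≤ 4 * Real.log L := by
    have h1 : (Y : ℝ) ≤ L ^ 4 := by
      have : L ^ 4 = L * L ^ 3 := by ring
      nlinarith
    have h2 := Real.log_le_log (by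
      have : 0 < Y := by omega
      exact_mod_cast this) h1
    rw [Real.log_pow] at h2
    exact_mod_cast h2
  have hwk : (w : ℝ) ^ (4 * k) ≤ X := by
    have h1 := pow_le_pow_left₀ hwpos.le hw1 (4 * k)
    rw [← Real.exp_nat_mul] at h1
    refine h1.trans ?_
    rw [← hXe]
    apply Real.exp_le_exp.2
    push_cast
    exact f5
  -- the cover
  set S : ℕ → ℝ := fun x => ∑ q ∈ PI Y Q, c q * ch (x : ℤ) q / q with hS
  set RR : Finset ℕ := (PI w X).filter (fun r => r ^ 2 ≤ X ∧ |S r| ≤ 1 / 2) with hRR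
  set F : Finset ℕ → ℕ → Finset ℕ := fun ps r => (Icc 1 X).filter (fun n => Pass D n ∧
    (∀ p ∈ ps, Ex D.c0 n p) ∧ Ex D.c0 n r ∧ ∀ p : ℕ, Ex D.c0 n p → p ≤ Q → p ∈ ps) with hF
  set AA : Finset ℕ := (range (Nat.log 2 X + 1)).biUnion (fun i =>
      ((Ioc (2 ^ i * w) (2 * (2 ^ i * w))).filter (fun x : ℕ =>
        1 / 2 < |∑ q ∈ PI Y Q, c q * ch (x : ℤ) q / q|)).biUnion (fun r =>
          (Icc 1 X).filter (fun n => r ∣ n))) with hAA
  set BB : Finset ℕ := (range k).biUnion (fun j => ((PI 0 w).powersetCard j).biUnion (fun ps =>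
    RR.biUnion (fun r => F ps r))) with hBB
  have hcov : (Icc 1 X).filter (fun n => Pass D n ∧ (EP D.c0 w n).card < k ∧
      ∃ r r' : ℕ, w < r ∧ r < r' ∧ Ex D.c0 n r ∧ Ex D.c0 n r') ⊆ AA ∪ BB := by
    intro n hn
    rw [mem_filter] at hn
    obtain ⟨hn1, hn2, hn3, r, r', hr1, hr2, hr3, hr4⟩ := hn
    have hnn := mem_Icc.1 hn1
    have hcop : Nat.Coprime r r' := (Nat.coprime_primes hr3.1 hr4.1).2 (by omega)
    have hdv : r * r' ∣ n := hcop.mul_dvd_of_dvd_of_dvd hr3.2.2.1 hr4.2.2.1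
    have hle : r * r' ≤ n := Nat.le_of_dvd (by omega) hdv
    have hsq : r ^ 2 ≤ X := by
      have : r ^ 2 ≤ r * r' := by
        rw [sq]
        exact Nat.mul_le_mul_left _ hr2.le
      omega
    have hrX : r ≤ X := (Nat.le_self_pow (by norm_num) r).trans hsq
    rw [mem_union]
    by_cases hSr : 1 / 2 < |S r|
    · left
      obtain ⟨i, hi1, hi2⟩ := dyadic (by omega : 1 ≤ w) hr1 hrX
      rw [hAA, mem_biUnion]
      refine ⟨i, hi1, ?_⟩
      rw [mem_biUnion]
      refine ⟨r, ?_, ?_⟩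
      · rw [mem_filter]
        exact ⟨hi2, hSr⟩
      · rw [mem_filter]
        exact ⟨hn1, hr3.2.2.1⟩
    · right
      rw [hBB, mem_biUnion]
      refine ⟨(EP D.c0 w n).card, mem_range.2 hn3, ?_⟩
      rw [mem_biUnion]
      refine ⟨EP D.c0 w n, ?_, ?_⟩
      · rw [mem_powersetCard]
        refine ⟨?_, rfl⟩
        intro p hp
        unfold EP at hp
        rw [mem_filter, mem_Icc] at hp
        unfold PI
        rw [mem_filter, mem_Ioc]
        exact ⟨⟨by omega, hp.1.2⟩, hp.2.1⟩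
      · rw [mem_biUnion]
        refine ⟨r, ?_, ?_⟩
        · rw [hRR, mem_filter]
          refine ⟨?_, hsq, not_lt.1 hSr⟩
          unfold PI
          rw [mem_filter, mem_Ioc]
          exact ⟨⟨hr1, hrX⟩, hr3.1⟩
        · rw [hF]
          dsimp only
          rw [mem_filter]
          refine ⟨hn1, hn2, ?_, hr3, ?_⟩
          · intro p hp
            unfold EP at hp
            exact (mem_filter.1 hp).2
          · intro p hp hpQ
            unfold EP
            rw [mem_filter, mem_Icc]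
            exact ⟨⟨hp.1.pos, hpQ.trans hQw⟩, hp⟩
  have hcount : ({n : ℕ | 1 ≤ n ∧ n ≤ X ∧ Pass D n ∧ (EP D.c0 w n).card < k ∧
      ∃ r r' : ℕ, w < r ∧ r < r' ∧ Ex D.c0 n r ∧ Ex D.c0 n r'}.ncard : ℝ) ≤
        (AA.card : ℝ) + (BB.card : ℝ) := by
    rw [d3_ncard]
    have := (card_le_card hcov).trans (card_union_le _ _)
    exact_mod_cast this
  -- bound of AA
  have hA := exc_count l2 D.κ c hD.κ1 hcκ Y Q w X (by omega) (by omega) hQ4
  rw [← hAA] at hA
  -- bound of BB
  set qf : ℝ := (Real.log Q) ^ (-(3 / 2) : ℝ) with hqf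
  set yf : ℝ := (Real.log Y) ^ (1 / 2 : ℝ) with hyf
  have hqf0 : 0 ≤ qf := Real.rpow_nonneg (by linarith) _
  have hyf0 : 0 ≤ yf := Real.rpow_nonneg hlY0 _
  set G : ℝ := C * X * qf * yf with hG
  have hG0 : 0 ≤ G := by positivity
  have hSR : ∑ r ∈ RR, (1 : ℝ) / r ≤ Real.log L + CM := by
    have h1 : RR ⊆ PI 0 X := by
      intro r hr
      rw [hRR, mem_filter] at hr
      have := hr.1
      unfold PI at this ⊢
      rw [mem_filter, mem_Ioc] at this ⊢
      exact ⟨⟨by omega, this.1.2⟩, this.2⟩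
    have h2 : ∑ r ∈ RR, (1 : ℝ) / r ≤ ∑ r ∈ PI 0 X, (1 : ℝ) / r :=
      sum_le_sum_of_subset_of_nonneg h1 (fun _ _ _ => by positivity)
    have hX3 : 3 ≤ X := by
      have h3 : L + 1 ≤ X := by
        rw [← hXe]
        exact Real.add_one_le_exp L
      have h4 : ((3 : ℕ) : ℝ) ≤ X := by
        push_cast
        linarith
      exact_mod_cast h4
    have h3 := (abs_le.1 (hCM X hX3)).2
    linarith
  have hB1 : ∀ j ∈ range k, ∀ ps ∈ (PI 0 w).powersetCard j, ∀ r ∈ RR,
      ((F ps r).card : ℝ) ≤ G * (1 / ∏ p ∈ ps, (p : ℝ)) * (1 / r) := by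
    intro j hj ps hps r hr
    rw [mem_range] at hj
    obtain ⟨hps1, hps2⟩ := d3_ps hps
    rw [hRR, mem_filter] at hr
    obtain ⟨hr1, hr2, hr3⟩ := hr
    unfold PI at hr1
    rw [mem_filter, mem_Ioc] at hr1
    have hrpos : 0 < r := hr1.2.pos
    have hrnot : r ∉ ps := by
      intro h
      have := (hps2 r h).2
      omega
    have hprod : ((∏ p ∈ ps, p) * r) ^ 4 ≤ X ^ 3 := by
      have h1 : ∏ p ∈ ps, p ≤ w ^ k := by
        refine (Finset.prod_le_pow_card ps _ w (fun p hp => (hps2 p hp).2)).trans ?_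
        exact Nat.pow_le_pow_right (by omega) (by omega)
      have h2 : w ^ (4 * k) ≤ X := by exact_mod_cast hwk
      calc ((∏ p ∈ ps, p) * r) ^ 4 = (∏ p ∈ ps, p) ^ 4 * (r ^ 2) ^ 2 := by ring
        _ ≤ (w ^ k) ^ 4 * X ^ 2 := Nat.mul_le_mul (Nat.pow_le_pow_left h1 4)
            (Nat.pow_le_pow_left hr2 2)
        _ = w ^ (4 * k) * X ^ 2 := by ring
        _ ≤ X * X ^ 2 := Nat.mul_le_mul_right _ h2
        _ = X ^ 3 := by ring
    have h := hCB X Y Q hY3 hYQ hcond ps r (by omega) (fun p hp => (hps2 p hp).1) hr1.2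
      (by omega) hrnot hprod hr3
    rw [d3_ncard] at h
    refine h.trans (le_of_eq ?_)
    rw [hG, hqf, hyf]
    have hr0 : (r : ℝ) ≠ 0 := by
      exact_mod_cast hrpos.ne'
    have hp0 : (∏ p ∈ ps, (p : ℝ)) ≠ 0 := by
      rw [Finset.prod_ne_zero_iff]
      intro p hp
      exact_mod_cast (hps2 p hp).1.ne_zero
    field_simp
  have hB : (BB.card : ℝ) ≤ G * (Real.log L + CM) * (SD * (1 + Real.log L) ^ k) := by
    have h1 : (BB.card : ℝ) ≤ ∑ j ∈ range k, ∑ ps ∈ (PI 0 w).powersetCard j, ∑ r ∈ RR,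
        ((F ps r).card : ℝ) := by
      have h2 := (Finset.card_biUnion_le (s := range k) (t := fun j =>
        ((PI 0 w).powersetCard j).biUnion (fun ps => RR.biUnion (fun r => F ps r)))).trans
        (Finset.sum_le_sum fun j _ => Finset.card_biUnion_le.trans
          (Finset.sum_le_sum fun ps _ => Finset.card_biUnion_le))
      exact_mod_cast h2
    refine h1.trans ?_
    have h3 : ∀ j ∈ range k, ∑ ps ∈ (PI 0 w).powersetCard j, ∑ r ∈ RR, ((F ps r).card : ℝ) ≤
        G * (Real.log L + CM) * (Dj j * (1 + Real.log L) ^ k) := by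
      intro j hj
      have h4 : ∀ ps ∈ (PI 0 w).powersetCard j, ∑ r ∈ RR, ((F ps r).card : ℝ) ≤
          G * (Real.log L + CM) * (1 / ∏ p ∈ ps, (p : ℝ)) := by
        intro ps hps
        refine (Finset.sum_le_sum (hB1 j hj ps hps)).trans ?_
        rw [← Finset.mul_sum]
        have h5 : 0 ≤ G * (1 / ∏ p ∈ ps, (p : ℝ)) := by positivity
        refine (mul_le_mul_of_nonneg_left hSR h5).trans (le_of_eq ?_)
        ring
      refine (Finset.sum_le_sum h4).trans ?_
      rw [← Finset.mul_sum]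
      refine mul_le_mul_of_nonneg_left ?_ (by positivity)
      refine (hDj j w hw3).trans ?_
      obtain ⟨hlw1, hllw⟩ := d3_log hw3
      have h6 : Real.log (Real.log w) ≤ Real.log L :=
        Real.log_le_log (by linarith) (by linarith)
      have h7 : (1 + Real.log (Real.log w)) ^ j ≤ (1 + Real.log L) ^ k :=
        (pow_le_pow_left₀ (by linarith) (by linarith) j).trans
          (pow_le_pow_right₀ (by linarith) (by
            rw [mem_range] at hj
            omega))
      exact mul_le_mul_of_nonneg_left h7 (by linarith [hDj1 j])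
    refine (Finset.sum_le_sum h3).trans (le_of_eq ?_)
    rw [← Finset.mul_sum, ← Finset.sum_mul]
  -- the two factors
  have hq : qf ≤ 27 * L ^ (-(9 / 8) : ℝ) := by
    rw [← nine_rpow L hL0]
    exact Real.rpow_le_rpow_of_nonpos (by positivity) hlQ2 (by norm_num)
  have hy : yf ≤ 2 * (1 + Real.log L) := by
    rw [hyf, ← Real.sqrt_eq_rpow]
    rw [Real.sqrt_le_left (by linarith)]
    nlinarith
  have hI : (Nat.log 2 X : ℝ) + 1 ≤ 2 * L + 1 := by
    have h1 : 2 ^ Nat.log 2 X ≤ X := Nat.pow_log_le_self 2 (by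
      intro h
      rw [h] at hX0
      simp at hX0)
    have h2 : ((2 : ℝ)) ^ Nat.log 2 X ≤ X := by exact_mod_cast h1
    have h3 := Real.log_le_log (by positivity) h2
    rw [Real.log_pow] at h3
    have h4 : (1 / 2 : ℝ) ≤ Real.log 2 := by linarith [Real.log_two_gt_d9]
    have h5 : (0 : ℝ) ≤ (Nat.log 2 X : ℝ) := Nat.cast_nonneg _
    nlinarith
  -- conclusion
  have hfin1 : (AA.card : ℝ) * L / X ≤ 8 * D.κ ^ 2 * ((2 * L + 1) / L ^ 2) := by
    have hYpos : (0 : ℝ) < Y := by linarith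
    calc (AA.card : ℝ) * L / X ≤ ((Nat.log 2 X + 1) * (8 * D.κ ^ 2 * X / Y)) * L / X := by gcongr
      _ = 8 * D.κ ^ 2 * ((Nat.log 2 X + 1) * L / Y) := by
          field_simp
      _ ≤ 8 * D.κ ^ 2 * ((2 * L + 1) * L / L ^ 3) := by gcongr
      _ = 8 * D.κ ^ 2 * ((2 * L + 1) / L ^ 2) := by
          field_simp
  have hpow : L * L ^ (-(9 / 8) : ℝ) = L ^ (-(1 / 8) : ℝ) := by
    nth_rewrite 1 [← Real.rpow_one L]
    rw [← Real.rpow_add hL0]
    norm_num
  have hfin2 : (BB.card : ℝ) * L / X ≤ 54 * C * SD * (1 + CM) *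
      ((1 + Real.log L) ^ (k + 2) * L ^ (-(1 / 8) : ℝ)) := by
    have hCMl : Real.log L + CM ≤ (1 + CM) * (1 + Real.log L) := by nlinarith
    have hLp : 0 ≤ L ^ (-(9 / 8) : ℝ) := Real.rpow_nonneg hL0.le _
    calc (BB.card : ℝ) * L / X
        ≤ (G * (Real.log L + CM) * (SD * (1 + Real.log L) ^ k)) * L / X := by gcongr
      _ = C * qf * yf * (Real.log L + CM) * (SD * (1 + Real.log L) ^ k) * L := by
          rw [hG]
          field_simp
      _ ≤ C * (27 * L ^ (-(9 / 8) : ℝ)) * (2 * (1 + Real.log L)) *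
          ((1 + CM) * (1 + Real.log L)) * (SD * (1 + Real.log L) ^ k) * L := by gcongr
      _ = 54 * C * SD * (1 + CM) * ((1 + Real.log L) ^ (k + 2) * (L * L ^ (-(9 / 8) : ℝ))) := by
          ring
      _ = _ := by rw [hpow]
  calc _ ≤ ((AA.card : ℝ) + (BB.card : ℝ)) * L / X := by gcongr
    _ = (AA.card : ℝ) * L / X + (BB.card : ℝ) * L / X := by ring
    _ ≤ _ := add_le_add hfin1 hfin2

end Pool.Agent.W304.PQ
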