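import Pool.Agent.W114.PQ.Stm
import Pool.Agent.H951R4.OD.D3
import Pool.Agent.H951R4.OD.M

/-!
Project PQ (helper114), task B: fewer than `k` small exact prime divisors, at least two large ones.
-/

set_option autoImplicit false

namespace Pool.Agent.W304.PQ

open Finset Filter Topology
open Pool.Agent.H951R4.OD (ch PI Ex mert_le sum_inv_prod d3_ncard d3_ps d3_log)
open Pool.Agent.W114.PQ

/-! ### growth -/

theorem ev_facts (C : ℝ) (k : ℕ) : ∀ᶠ t : ℝ in atTop,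
    2 ≤ t ∧ t ^ 3 + 2 ≤ Real.exp (t ^ (3 / 4 : ℝ) / 8) ∧
    C * t ^ (3 / 4 : ℝ) * (1 + Real.log t) ≤ t ∧
    Real.exp (t ^ (3 / 4 : ℝ) / 2) + 1 ≤ Real.exp (t ^ (3 / 4 : ℝ)) ∧
    4 * (k : ℝ) * t ^ (3 / 4 : ℝ) ≤ t ∧
    Real.exp (t ^ (3 / 4 : ℝ) / 9) + 1 ≤ Real.exp (t ^ (3 / 4 : ℝ) / 8) ∧
    4 ≤ Real.exp (t ^ (3 / 4 : ℝ)) ∧ t ^ (3 / 4 : ℝ) ≤ t := by
  have hu : Tendsto (fun t : ℝ => t ^ (3 / 4 : ℝ)) atTop atTop := tendsto_rpow_atTop (by norm_num)
  have hv : Tendsto (fun t : ℝ => t ^ (1 / 4 : ℝ)) atTop atTop := tendsto_rpow_atTop (by norm_num)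
  have e1 : ∀ᶠ t : ℝ in atTop, 2 ≤ t := eventually_ge_atTop 2
  have e2 : ∀ᶠ t : ℝ in atTop, (t ^ (3 / 4 : ℝ)) ^ 4 ≤ 1 / 2 * Real.exp (t ^ (3 / 4 : ℝ) / 8) := by
    have h1 := (isLittleO_pow_exp_pos_mul_atTop 4 (b := 1 / 8) (by norm_num)).bound
      (show (0 : ℝ) < 1 / 2 by norm_num)
    have h2 := hu.eventually h1
    filter_upwards [h2] with t ht
    rw [Real.norm_eq_abs, Real.norm_eq_abs, abs_of_pos (Real.exp_pos _)] at ht
    refine (le_abs_self _).trans (ht.trans (le_of_eq ?_))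
    congr 2
    ring
  have e3 : ∀ᶠ t : ℝ in atTop, 10 ≤ t ^ (3 / 4 : ℝ) / 72 := by
    filter_upwards [hu.eventually (eventually_ge_atTop (720 : ℝ))] with t ht
    linarith
  have e4 : ∀ᶠ t : ℝ in atTop, |C| * Real.log t ≤ 1 / 2 * t ^ (1 / 4 : ℝ) := by
    have h1 := (isLittleO_log_rpow_atTop (r := (1 / 4 : ℝ)) (by norm_num)).bound
      (show (0 : ℝ) < 1 / (2 * (|C| + 1)) by positivity)
    filter_upwards [h1, eventually_ge_atTop (1 : ℝ)] with t ht ht1
    rw [Real.norm_eq_abs, Real.norm_eq_abs, abs_of_nonneg (Real.log_nonneg ht1),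
      abs_of_nonneg (Real.rpow_nonneg (by linarith) _)] at ht
    have h2 : |C| * Real.log t ≤ (|C| + 1) * Real.log t :=
      mul_le_mul_of_nonneg_right (by linarith) (Real.log_nonneg ht1)
    refine h2.trans ?_
    have h3 := mul_le_mul_of_nonneg_left ht (show (0 : ℝ) ≤ |C| + 1 by positivity)
    refine h3.trans (le_of_eq ?_)
    field_simp
  have e5 : ∀ᶠ t : ℝ in atTop, 2 * |C| + 4 * k ≤ t ^ (1 / 4 : ℝ) :=
    hv.eventually (eventually_ge_atTop _)
  filter_upwards [e1, e2, e3, e4, e5] with t h1 h2 h3 h4 h5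
  have ht0 : (0 : ℝ) < t := by linarith
  have hprod : t ^ (3 / 4 : ℝ) * t ^ (1 / 4 : ℝ) = t := by
    rw [← Real.rpow_add ht0]
    norm_num
  have hp4 : (t ^ (3 / 4 : ℝ)) ^ 4 = t ^ 3 := by
    rw [← Real.rpow_natCast, ← Real.rpow_mul ht0.le, ← Real.rpow_natCast]
    norm_num
  set u : ℝ := t ^ (3 / 4 : ℝ) with hu'
  set v : ℝ := t ^ (1 / 4 : ℝ) with hv'
  have hu0 : 720 ≤ u := by linarith
  have hv1 : 1 ≤ v := Real.one_le_rpow (by linarith) (by norm_num)
  have hex8 : u / 8 + 1 ≤ Real.exp (u / 8) := Real.add_one_le_exp _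
  have hex72 : u / 72 + 1 ≤ Real.exp (u / 72) := Real.add_one_le_exp _
  have hex2 : u / 2 + 1 ≤ Real.exp (u / 2) := Real.add_one_le_exp _
  have hex : u + 1 ≤ Real.exp u := Real.add_one_le_exp _
  have hl0 : 0 ≤ Real.log t := Real.log_nonneg (by linarith)
  have hk0 : (0 : ℝ) ≤ k := Nat.cast_nonneg k
  refine ⟨h1, ?_, ?_, ?_, ?_, ?_, by linarith, ?_⟩
  · rw [← hp4]
    linarith
  · have h6 : C * (1 + Real.log t) ≤ v := by
      have h7 : C * (1 + Real.log t) ≤ |C| * (1 + Real.log t) :=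
        mul_le_mul_of_nonneg_right (le_abs_self C) (by linarith)
      have h8 : 0 ≤ |C| := abs_nonneg C
      nlinarith
    calc C * u * (1 + Real.log t) = u * (C * (1 + Real.log t)) := by ring
      _ ≤ u * v := mul_le_mul_of_nonneg_left h6 (by linarith)
      _ = t := hprod
  · have h6 : Real.exp u = Real.exp (u / 2) * Real.exp (u / 2) := by
      rw [← Real.exp_add]
      congr 1
      ring
    rw [h6]
    nlinarith
  · have h6 : 4 * (k : ℝ) ≤ v := by
      have := abs_nonneg C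
      linarith
    calc 4 * (k : ℝ) * u = u * (4 * k) := by ring
      _ ≤ u * v := mul_le_mul_of_nonneg_left h6 (by linarith)
      _ = t := hprod
  · have h6 : Real.exp (u / 8) = Real.exp (u / 9) * Real.exp (u / 72) := by
      rw [← Real.exp_add]
      congr 1
      ring
    have h7 : 1 ≤ Real.exp (u / 9) := Real.one_le_exp (by linarith)
    rw [h6]
    nlinarith
  · calc u = u * 1 := (mul_one u).symm
      _ ≤ u * v := mul_le_mul_of_nonneg_left hv1 (by linarith)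
      _ = t := hprod

theorem lim_facts (A B : ℝ) (m : ℕ) : Tendsto (fun t : ℝ => A * ((2 * t + 1) / t ^ 2) +
    B * ((1 + Real.log t) ^ m * t ^ (-(1 / 8) : ℝ))) atTop (𝓝 0) := by
  have h1 : Tendsto (fun t : ℝ => (2 * t + 1) / t ^ 2) atTop (𝓝 0) := by
    have h2 : Tendsto (fun t : ℝ => 2 * t⁻¹ + t⁻¹ ^ 2) atTop (𝓝 (2 * 0 + 0 ^ 2)) :=
      (tendsto_inv_atTop_zero.const_mul 2).add (tendsto_inv_atTop_zero.pow 2)
    rw [show (2 * 0 + 0 ^ 2 : ℝ) = 0 by norm_num] at h2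
    refine h2.congr' ?_
    filter_upwards [eventually_gt_atTop (0 : ℝ)] with t ht
    field_simp
  have h3 : Tendsto (fun t : ℝ => (1 + Real.log t) ^ m * t ^ (-(1 / 8) : ℝ)) atTop (𝓝 0) := by
    have h4 := (isLittleO_log_rpow_rpow_atTop (m : ℝ) (s := (1 / 8 : ℝ)) (by norm_num))
    have h5 := h4.tendsto_div_nhds_zero.const_mul ((2 : ℝ) ^ m)
    rw [mul_zero] at h5
    refine squeeze_zero' ?_ ?_ h5
    · filter_upwards [eventually_ge_atTop (1 : ℝ)] with t ht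
      have := Real.log_nonneg ht
      have := Real.rpow_nonneg (show (0 : ℝ) ≤ t by linarith) (-(1 / 8) : ℝ)
      positivity
    · filter_upwards [eventually_ge_atTop (Real.exp 1)] with t ht
      have ht0 : 0 < t := lt_of_lt_of_le (Real.exp_pos 1) ht
      have hl : 1 ≤ Real.log t := by rwa [Real.le_log_iff_exp_le ht0]
      rw [Real.rpow_neg ht0.le, ← div_eq_mul_inv, Real.rpow_natCast, ← mul_div_assoc, ← mul_pow]
      refine div_le_div_of_nonneg_right ?_ (Real.rpow_nonneg ht0.le _)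
      exact pow_le_pow_left₀ (by linarith) (by linarith) m
  have := (h1.const_mul A).add (h3.const_mul B)
  rwa [mul_zero, mul_zero, add_zero] at this

/-! ### the two counts -/

theorem card_mult (X r : ℕ) : (((Icc 1 X).filter (fun n => r ∣ n)).card : ℝ) ≤ X / r := by
  have h1 : ((Icc 1 X).filter (fun n => r ∣ n)).card = X / r := by
    have h2 : Icc 1 X = Ioc 0 X := rfl
    rw [h2, Nat.Ioc_filter_dvd_card_eq_div]
  rw [h1]
  exact Nat.cast_div_le

open scoped Classical in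
/-- multiples of exceptional numbers -/
theorem exc_count (l2 : S_L2) (κ : ℝ) (c : ℕ → ℝ) (hκ : 1 ≤ κ) (hc : ∀ q, |c q| ≤ κ)
    (Y Q w X : ℕ) (hY : 1 ≤ Y) (hw : 1 ≤ w) (hQ : Q ^ 4 ≤ w) :
    (((range (Nat.log 2 X + 1)).biUnion (fun i =>
      ((Ioc (2 ^ i * w) (2 * (2 ^ i * w))).filter (fun x : ℕ =>
        1 / 2 < |∑ q ∈ PI Y Q, c q * ch (x : ℤ) q / q|)).biUnion (fun r =>
          (Icc 1 X).filter (fun n => r ∣ n)))).card : ℝ) ≤
      (Nat.log 2 X + 1) * (8 * κ ^ 2 * X / Y) := by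
  have h1 : (((range (Nat.log 2 X + 1)).biUnion (fun i =>
      ((Ioc (2 ^ i * w) (2 * (2 ^ i * w))).filter (fun x : ℕ =>
        1 / 2 < |∑ q ∈ PI Y Q, c q * ch (x : ℤ) q / q|)).biUnion (fun r =>
          (Icc 1 X).filter (fun n => r ∣ n)))).card : ℝ) ≤
      ∑ i ∈ range (Nat.log 2 X + 1), ∑ r ∈ (Ioc (2 ^ i * w) (2 * (2 ^ i * w))).filter
        (fun x : ℕ => 1 / 2 < |∑ q ∈ PI Y Q, c q * ch (x : ℤ) q / q|),
          (((Icc 1 X).filter (fun n => r ∣ n)).card : ℝ) := by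
    have h2 := Finset.card_biUnion_le (s := range (Nat.log 2 X + 1)) (t := fun i =>
      ((Ioc (2 ^ i * w) (2 * (2 ^ i * w))).filter (fun x : ℕ =>
        1 / 2 < |∑ q ∈ PI Y Q, c q * ch (x : ℤ) q / q|)).biUnion (fun r =>
          (Icc 1 X).filter (fun n => r ∣ n)))
    have h3 := h2.trans (Finset.sum_le_sum fun i _ => Finset.card_biUnion_le)
    exact_mod_cast h3
  refine h1.trans ?_
  have h4 : ∀ i ∈ range (Nat.log 2 X + 1), ∑ r ∈ (Ioc (2 ^ i * w) (2 * (2 ^ i * w))).filter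
        (fun x : ℕ => 1 / 2 < |∑ q ∈ PI Y Q, c q * ch (x : ℤ) q / q|),
          (((Icc 1 X).filter (fun n => r ∣ n)).card : ℝ) ≤ 8 * κ ^ 2 * X / Y := by
    intro i _
    have hpow : 1 ≤ 2 ^ i := Nat.one_le_two_pow
    have hR : w ≤ 2 ^ i * w := Nat.le_mul_of_pos_left w hpow
    have h5 := l2 κ c hκ hc Y Q (2 ^ i * w) hY (hQ.trans hR)
    have hRpos : (0 : ℝ) < ((2 ^ i * w : ℕ) : ℝ) := by
      have : 0 < 2 ^ i * w := by positivity
      exact_mod_cast this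
    have hX0 : (0 : ℝ) ≤ X := Nat.cast_nonneg X
    have h6 : ∀ r ∈ (Ioc (2 ^ i * w) (2 * (2 ^ i * w))).filter
        (fun x : ℕ => 1 / 2 < |∑ q ∈ PI Y Q, c q * ch (x : ℤ) q / q|),
          (((Icc 1 X).filter (fun n => r ∣ n)).card : ℝ) ≤ X / ((2 ^ i * w : ℕ) : ℝ) := by
      intro r hr
      rw [mem_filter, mem_Ioc] at hr
      refine (card_mult X r).trans ?_
      apply div_le_div_of_nonneg_left hX0 hRpos
      exact_mod_cast hr.1.1.le
    refine (Finset.sum_le_card_nsmul _ _ _ h6).trans ?_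
    rw [nsmul_eq_mul]
    refine (mul_le_mul_of_nonneg_right h5 (by positivity)).trans (le_of_eq ?_)
    field_simp
  refine (Finset.sum_le_sum h4).trans (le_of_eq ?_)
  rw [sum_const, card_range, nsmul_eq_mul]
  push_cast
  rfl

/-- the dyadic interval of a number -/
theorem dyadic {w X r : ℕ} (hw : 1 ≤ w) (h1 : w < r) (h2 : r ≤ X) :
    ∃ i ∈ range (Nat.log 2 X + 1), r ∈ Ioc (2 ^ i * w) (2 * (2 ^ i * w)) := by
  have h3 : 1 ≤ (r - 1) / w := (Nat.one_le_div_iff (by omega)).2 (by omega)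
  refine ⟨Nat.log 2 ((r - 1) / w), ?_, ?_⟩
  · rw [mem_range]
    have : (r - 1) / w ≤ X := (Nat.div_le_self _ _).trans (by omega)
    have := Nat.log_mono_right (b := 2) this
    omega
  · rw [mem_Ioc]
    have h4 : 2 ^ Nat.log 2 ((r - 1) / w) ≤ (r - 1) / w := Nat.pow_log_le_self 2 (by omega)
    have h5 : (r - 1) / w < 2 ^ (Nat.log 2 ((r - 1) / w) + 1) :=
      Nat.lt_pow_succ_log_self (by norm_num) _
    constructor
    · have := (Nat.le_div_iff_mul_le (by omega : 0 < w)).1 h4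
      omega
    · have := (Nat.div_lt_iff_lt_mul (by omega : 0 < w)).1 h5
      have h6 : 2 ^ (Nat.log 2 ((r - 1) / w) + 1) * w = 2 * (2 ^ Nat.log 2 ((r - 1) / w) * w) := by
        rw [pow_succ]
        ring
      omega

end Pool.Agent.W304.PQ
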